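import Pool.Agent.helper23.CO.SpecB
import Pool.Agent.helper18.CWM.THB
import Pool.Agent.helper18.CWM.FKG

/-!
# co:BAS
-/

open Finset Filter Topology

namespace CO

open CU

theorem BAS_exp (hHHT : HHT_stmt) (d n : ℕ) [NeZero n] (b h : ℝ) (σ : Conf d n) :
    Real.exp (CWM.HH (KT b fun _ => 0) (fun _ => h) σ) = wt b h σ := by
  rw [(hHHT d n b h (fun _ => 0) σ).1]
  simp [wt, HN, Mg]

theorem BAS_cw {V : Type} [Fintype V] [DecidableEq V] (W : (V → Bool) → ℝ) (A : Finset V) (F : (V → Bool) → ℝ) :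
    CWM.av (CWM.cw W A true) F = (∑ σ ∈ pl (univ \ A), W σ * F σ) / ∑ σ ∈ pl (univ \ A), W σ := by
  have key : ∀ G : (V → Bool) → ℝ, (∑ σ : V → Bool, CWM.cw W A true σ * G σ) = ∑ σ ∈ pl (univ \ A), W σ * G σ := by
    intro G
    rw [pl, Finset.sum_filter]
    refine Finset.sum_congr rfl fun σ _ => ?_
    by_cases h : ∀ x ∈ univ \ A, σ x = true
    · have h' : ∀ x, x ∉ A → σ x = true := fun x hx => h x (by simp [hx])
      rw [if_pos h]
      simp only [CWM.cw, CWM.ind]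
      rw [if_pos h']
      ring
    · have h' : ¬ ∀ x, x ∉ A → σ x = true := fun h1 => h fun x hx => h1 x (by simpa using hx)
      rw [if_neg h]
      simp only [CWM.cw, CWM.ind]
      rw [if_neg h']
      ring
  have h1 := key fun _ => 1
  simp only [mul_one] at h1
  rw [CWM.av, key F, h1]

theorem BAS_pos {V : Type} [Fintype V] [DecidableEq V] (W : (V → Bool) → ℝ) (hW : ∀ σ, 0 < W σ) (A : Finset V) (b : Bool) :
    0 < ∑ σ : V → Bool, CWM.cw W A b σ := by
  refine Finset.sum_pos' (fun σ _ => ?_) ⟨fun _ => b, mem_univ _, ?_⟩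
  · simp only [CWM.cw, CWM.ind]
    split_ifs
    · simpa using (hW σ).le
    · simp
  · have h1 : CWM.cw W A b (fun _ => b) = W fun _ => b := by simp [CWM.cw, CWM.ind]
    rw [h1]
    exact hW _

theorem BAS_av {V : Type} [Fintype V] [DecidableEq V] (W : (V → Bool) → ℝ) (hW : 0 < ∑ σ : V → Bool, W σ) (x : V) :
    CWM.av W (fun σ => sg (σ x)) = 2 * CWM.av W (fun σ => CWM.ind (σ x = true)) - 1 := by
  have h : ∀ σ : V → Bool, sg (σ x) = 2 * CWM.ind (σ x = true) - 1 := by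
    intro σ
    unfold sg CWM.ind
    split_ifs <;> norm_num
  unfold CWM.av
  simp only [h]
  have h2 : ∑ σ : V → Bool, W σ * (2 * CWM.ind (σ x = true) - 1) =
      2 * (∑ σ : V → Bool, W σ * CWM.ind (σ x = true)) - ∑ σ : V → Bool, W σ := by
    rw [Finset.mul_sum, ← Finset.sum_sub_distrib]
    exact Finset.sum_congr rfl fun σ _ => by ring
  rw [h2]
  field_simp

theorem BAS_box (d n L : ℕ) (b h : ℝ) :
    CWM.Bl (CWM.tD d (n + 3) b h) 0 L = (Box L 0 : Finset (Site d (n + 3))) := by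
  unfold CWM.Bl Box
  refine Finset.filter_congr fun y _ => ?_
  show CWM.dsT 0 y ≤ L ↔ Near L 0 y
  unfold CWM.dsT Near
  rw [Finset.sup_le_iff]
  constructor
  · intro H k
    have := H k (mem_univ k)
    rwa [← ZMod.natAbs_valMinAbs_neg, neg_sub] at this
  · intro H k _
    have := H k
    rwa [← ZMod.natAbs_valMinAbs_neg, neg_sub] at this

theorem BAS_mono {V : Type} (x : V) : Monotone fun σ : V → Bool => sg (σ x) := by
  intro σ τ hst
  have := hst x
  show sg (σ x) ≤ sg (τ x)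
  revert this
  cases σ x <;> cases τ x <;> simp [sg]

theorem BAS (hSTAT : CWM.STAT_stmt) (hVF : CU.VF_stmt) (hMSP : MSP_stmt) (hGKW : GKW_stmt) (hSTO : STO_stmt) (hCAB : CAB_stmt)
    (hEXT : EXT_stmt) (hHHT : HHT_stmt) : BAS_stmt := by
  intro d b h κ hd hb hh hκ
  obtain ⟨C, hC, hS⟩ := hSTAT d b h hb hh.ne'
  obtain ⟨L, hL⟩ := exists_nat_ge (2 * C / κ)
  have hL1 : 2 * (C / ((L : ℝ) + 1) ^ (4 * d)) ≤ κ := by
    have h1 : (1 : ℝ) ≤ (L : ℝ) + 1 := by linarith [Nat.cast_nonneg (α := ℝ) L]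
    have h2 : (L : ℝ) + 1 ≤ ((L : ℝ) + 1) ^ (4 * d) := by
      calc (L : ℝ) + 1 = ((L : ℝ) + 1) ^ 1 := (pow_one _).symm
        _ ≤ ((L : ℝ) + 1) ^ (4 * d) := pow_le_pow_right₀ h1 (by omega)
    rw [div_le_iff₀ hκ] at hL
    rw [mul_div_assoc', div_le_iff₀ (by linarith)]
    nlinarith
  filter_upwards [eventually_ge_atTop (2 * L)] with n hn
  have hHB := CWM.THB d n b h hb
  have hdl := hS n 0 L
  rw [BAS_box] at hdl
  set A : Finset (Site d (n + 3)) := Box L 0 with hA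
  set W : Conf d (n + 3) → ℝ := wt b h with hWdef
  have hWpos : ∀ σ, 0 < W σ := hHB.pos
  have hF := (CWM.FKG _ _ _ W hHB A (fun σ => sg (σ 0)) (BAS_mono 0)).1
  have e1 := BAS_av (CWM.cw W A true) (BAS_pos W hWpos A true) 0
  have e2 := BAS_av (CWM.cw W A false) (BAS_pos W hWpos A false) 0
  have hm : CWM.av W (fun σ => sg (σ 0)) = mT d (n + 3) b h := by
    unfold mT ex CWM.av
    simp only [BAS_exp hHHT, hWdef]
  have hp : exA (KT b fun _ => 0) (fun _ => h) (univ \ A) (fun σ : Conf d (n + 3) => sg (σ 0)) =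
      CWM.av (CWM.cw W A true) fun σ => sg (σ 0) := by
    rw [BAS_cw]
    unfold exA
    simp only [BAS_exp hHHT, hWdef]
  have hg := (hGKW (Site d (n + 3)) (KT b fun _ => 0) (KT b fun _ => 0) (fun _ => 0) (fun _ => h)
    (fun x y => by
      unfold KT
      rw [add_zero]
      exact mul_nonneg hb (Finset.sum_nonneg fun i _ => by split_ifs <;> norm_num))
    (fun _ => le_rfl) (fun _ _ => le_rfl) (fun _ => hh.le) (univ \ A) (univ \ A) (Finset.Subset.refl _) 0 0).1
  have hx := (hEXT d (n + 3) b).2.1 A (fun σ => sg (σ 0))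
  have hv := hVF d b L n hn
  have hms := ((hMSP d).1 b L hb).2.1
  have hML : CS.ML d b L = ExD (d := d) (n := n + 3) b (Box L 0) (fun σ => sg (σ 0)) := hv.symm
  unfold CWM.dl at hdl
  rw [hML, ← hA, hx] at hms
  rw [← hm]
  linarith

end CO
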